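import Pool.Agent.Results.MP_22c5db_an.Local

/-! Consequences of the hand-in Local: the case of a finite cyclic set (former hand-in Cyclic) and
the case of a properly infinite algebra on an arbitrary space. -/

namespace Pool.Agent.Kad.H4

open Pool.Agent.Kad.H3 Finset

variable {H : Type*} [NormedAddCommGroup H] [InnerProductSpace ℂ H] [CompleteSpace H]

/-- the second bounded cohomology vanishes -/
def Van (M : VonNeumannAlgebra H) : Prop :=
  ∀ φ : M.toStarSubalgebra →L[ℂ] M.toStarSubalgebra →L[ℂ] (H →L[ℂ] H),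
    (∀ a b c : M.toStarSubalgebra,
      (a : H →L[ℂ] H) * φ b c - φ (a * b) c + φ a (b * c) - φ a b * (c : H →L[ℂ] H) = 0) →
    ∃ ψ : M.toStarSubalgebra →L[ℂ] (H →L[ℂ] H), ∀ a b : M.toStarSubalgebra,
      φ a b = (a : H →L[ℂ] H) * ψ b - ψ (a * b) + ψ a * (b : H →L[ℂ] H)

theorem van_of_local (M : VonNeumannAlgebra H) (k : ℕ)
    (hK : ∀ F : Finset H, ∃ S : Finset H, S.card ≤ k ∧
      (F : Set H) ⊆ closure (Submodule.span ℂ {η : H | ∃ x ∈ M, ∃ ξ ∈ S, η = x ξ} : Set H)) :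
    Van M := fun φ hφ => by
  obtain ⟨ψ, -, h⟩ := Pool.Agent.Results.MP_22c5db_an.Local.result M Set.univ k
    (fun F _ => hK F) φ hφ
  exact ⟨ψ, fun a b => ContinuousLinearMap.ext fun ζ => h a b ζ (Set.mem_univ ζ)⟩

/-- a finite cyclic set -/
theorem cyclic (M : VonNeumannAlgebra H) (S : Finset H)
    (hS : Dense (Submodule.span ℂ {η : H | ∃ x ∈ M, ∃ ξ ∈ S, η = x ξ} : Set H)) : Van M :=
  van_of_local M S.card fun _ => ⟨S, le_rfl, fun ζ _ => hS ζ⟩

/-- two isometries with orthogonal ranges, any space -/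
theorem propInf (M : VonNeumannAlgebra H) {s t : H →L[ℂ] H} (hs : s ∈ M) (ht : t ∈ M)
    (h1 : star s * s = 1) (h2 : star t * t = 1) (h3 : star s * t = 0) : Van M := by
  classical
  obtain ⟨v, hvM, hv⟩ := Cases.exists_isoms (R := M) pinf_cen_one ⟨s, hs, t, ht, h1, h2, h3⟩
  refine van_of_local M 1 fun F => ?_
  let f : F → ℕ := fun ζ => F.equivFin ζ
  have hf : Function.Injective f := Fin.val_injective.comp F.equivFin.injective
  refine ⟨{∑ ζ : F, v (f ζ) ζ}, by simp, fun ζ hζ => subset_closure (Submodule.subset_span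
    ⟨star (v (f ⟨ζ, hζ⟩)), star_mem (hvM _), _, mem_singleton_self _, ?_⟩)⟩
  rw [map_sum, sum_eq_single (⟨ζ, hζ⟩ : F) (fun η _ hη => by
    rw [← mul_apply_eq_comp, hv, if_neg fun h => hη (hf h).symm, zero_apply])
    fun h => absurd (mem_univ _) h, ← mul_apply_eq_comp, hv, if_pos rfl]
  rfl

end Pool.Agent.Kad.H4
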