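import Pool.Agent.Lib.MP_22c5db_an.H3.Top

/-! The local form: no finite cyclic set for the whole space. -/

open scoped InnerProductSpace ComplexConjugate
open Finset

noncomputable section

namespace Pool.Agent.Kad.H4

open Pool.Agent.Kad.H2 Pool.Agent.Kad.H3

universe u

set_option linter.unusedSectionVars false

variable {H : Type u} [NormedAddCommGroup H] [InnerProductSpace ℂ H] [CompleteSpace H]
  {M : VonNeumannAlgebra H} {φ : Bil H} {C : ℝ}

/-- the central support of a vector -/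
theorem vec_supp (ξ : H) : ∃ w, Cen M w ∧ w ξ = ξ ∧ ∀ c, Cen M c → c ξ = 0 → c * w = 0 := by
  obtain ⟨w, hw, h1, -, -, h4, h5⟩ :=
    exists_proj {η : H | ∃ x ∈ M, ∃ s ∈ M.commutant, η = x (s ξ)}
  have h6 : ∀ t ∈ M.commutant, ∀ η ∈ {η : H | ∃ x ∈ M, ∃ s ∈ M.commutant, η = x (s ξ)},
      w (t η) = t η := by
    rintro t ht _ ⟨x, hx, s, hs, rfl⟩
    refine h1 _ ⟨x, hx, t * s, mul_mem ht hs, ?_⟩
    have := congrArg (fun y : Op H => y (s ξ)) (comm_of_mem hx ht)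
    simpa only [mul_apply_eq_comp] using this
  have h7 : ∀ t ∈ M, ∀ η ∈ {η : H | ∃ x ∈ M, ∃ s ∈ M.commutant, η = x (s ξ)},
      w (t η) = t η := by
    rintro t ht _ ⟨x, hx, s, hs, rfl⟩
    exact h1 _ ⟨t * x, mul_mem ht hx, s, hs, rfl⟩
  refine ⟨w, ⟨hw, mem_of_comm fun s hs => h5 s (h6 s hs) (h6 _ (star_mem hs)),
    fun t ht => (h5 t (h7 t ht) (h7 _ (star_mem ht))).symm⟩,
    h1 _ ⟨1, one_mem M, 1, one_mem _, rfl⟩, fun c hc h0 => h4 c ?_⟩
  rintro _ ⟨x, hx, s, hs, rfl⟩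
  rw [← mul_apply_eq_comp c, hc.2.2 x hx, mul_apply_eq_comp, ← mul_apply_eq_comp c,
    ← comm_of_mem hc.2.1 hs, mul_apply_eq_comp, h0, map_zero, map_zero]

/-- the one vector bound for every algebra on every space -/
theorem loc_all (h : CC M φ) (hb : Bd2 M φ C) (hC : 0 ≤ C) (hz : ZN M φ) :
    Loc M φ (10 ^ 11 * C) := by
  have h0 : (0 : ℝ) ≤ 10 ^ 11 * C := by positivity
  refine loc_glue h hb hC hz h0 fun z hzc hz0 => ?_
  obtain ⟨ζ, hζ⟩ : ∃ ζ, z ζ ≠ 0 := by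
    by_contra hn
    exact hz0 (ContinuousLinearMap.ext fun ζ => not_not.1 fun h' => hn ⟨ζ, h'⟩)
  obtain ⟨w, hw, w1, w2⟩ := vec_supp (M := M) (z ζ)
  have hw0 : w ≠ 0 := fun h' => hζ (by rw [← w1, h', ContinuousLinearMap.zero_apply])
  have hzw : z * w = w := by
    have h1 := w2 (1 - z) hzc.one_sub (by
      rw [ContinuousLinearMap.sub_apply, ContinuousLinearMap.one_apply, VN0.proj_proj hzc.1,
        sub_self])
    rw [sub_mul, one_mul, sub_eq_zero] at h1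
    exact h1.symm
  obtain ⟨K, _, _, _, J, N, hJ⟩ := exists_frame (R := M) hw.1 hw.2.1 Unit
  obtain ⟨c1, c2⟩ := cor_cc hw hJ h hz
  have c3 := cor_bd hJ hb hC
  have hS : Sep N := by
    refine ⟨{J () (z ζ)}, fun Z hZ h1 => ?_⟩
    obtain ⟨h2, h3, h4⟩ := cor_cen hw hJ hZ
    have h5 : ent J Z () () (z ζ) = 0 := by
      change ContinuousLinearMap.adjoint (J ()) (Z (J () (z ζ))) = 0
      rw [h1 _ (mem_singleton_self _), map_zero]
    refine h4 ?_
    rw [← h3, hw.2.2 _ h2.2.1]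
    exact w2 _ h2 h5
  exact ⟨w, hw, hw0, hzw, cor_loc hw hJ h hz h0
    (loc_glue c1 c3 hC c2 h0 fun y hy hy0 => loc_piece hS c1 c3 hC c2 hy hy0)⟩

/-- finitely many vectors, with a constant -/
theorem key (hC : 0 ≤ C) (h : Loc M φ C) (S : Finset H) :
    ∃ q : Op H, IsStarProjection q ∧ (∀ x ∈ M, x * q = q * x) ∧
      (∀ ξ ∈ S, q ξ = ξ) ∧ ∃ ψ : Op H →ₗ[ℂ] Op H, Bd M ψ (S.card * C) ∧
        ∀ x ∈ M, ∀ y ∈ M, φ x y * q = cob ψ x y := by
  classical
  induction S using Finset.induction_on with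
  | empty =>
    refine ⟨0, IsStarProjection.zero _, fun x _ => by simp, fun ξ hξ => by simp at hξ, 0,
      fun x _ => by simp, fun x _ y _ => ?_⟩
    rw [cob_apply]
    simp
  | insert ξ S hξS ih =>
    obtain ⟨q, hq, hqM, hqS, ψ, hψ, hφ⟩ := ih
    obtain ⟨ψ', hψ', hφ'⟩ := h (ξ - q ξ)
    obtain ⟨r, hr, r1, -, -, r4, r5⟩ := exists_proj {η : H | ∃ b ∈ M, η = b (ξ - q ξ)}
    have hrM : ∀ x ∈ M, x * r = r * x := by
      intro x hx
      refine r5 x ?_ ?_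
      · rintro _ ⟨b, hb, rfl⟩
        exact r1 _ ⟨x * b, mul_mem hx hb, rfl⟩
      · rintro _ ⟨b, hb, rfl⟩
        exact r1 _ ⟨star x * b, mul_mem (star_mem hx) hb, rfl⟩
    have hqr : q * r = 0 := by
      refine r4 q ?_
      rintro _ ⟨b, hb, rfl⟩
      rw [← mul_apply_eq_comp, ← hqM b hb, mul_apply_eq_comp, map_sub, VN0.proj_proj hq, sub_self,
        map_zero]
    have hrq : r * q = 0 := by
      have h1 := congrArg star hqr
      rwa [star_mul, hq.isSelfAdjoint.star_eq, hr.isSelfAdjoint.star_eq, star_zero] at h1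
    have hrq' : ∀ ζ, r (q ζ) = 0 := fun ζ => by
      rw [← mul_apply_eq_comp, hrq, ContinuousLinearMap.zero_apply]
    have hφr : ∀ x ∈ M, ∀ y ∈ M, φ x y * r = cob ψ' x y * r := by
      intro x hx y hy
      have h1 := r4 (φ x y - cob ψ' x y) (by
        rintro _ ⟨b, hb, rfl⟩
        rw [ContinuousLinearMap.sub_apply, hφ' x hx y hy b hb, sub_self])
      rwa [sub_mul, sub_eq_zero] at h1
    refine ⟨q + r, hq.add hr hqr, fun x hx => by rw [mul_add, add_mul, hqM x hx, hrM x hx],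
      fun η hη => ?_, ψ + LinearMap.mulRight ℂ r ∘ₗ ψ', fun x hx => ?_,
      fun x hx y hy => ?_⟩
    · rw [ContinuousLinearMap.add_apply]
      rcases Finset.mem_insert.1 hη with rfl | hη
      · have h1 : r (η - q η) = η - q η := r1 _ ⟨1, one_mem M, rfl⟩
        rw [map_sub, hrq', sub_zero] at h1
        rw [h1, add_sub_cancel]
      · have h1 := hrq' η
        rw [hqS η hη] at h1
        rw [h1, hqS η hη, add_zero]
    · have h1 : ‖ψ' x * r‖ ≤ C * ‖x‖ :=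
        (norm_mul_le _ _).trans
          ((mul_le_of_le_one_right (norm_nonneg _) (hr.norm_le r)).trans (hψ' x hx))
      have h2 : (ψ + LinearMap.mulRight ℂ r ∘ₗ ψ') x = ψ x + ψ' x * r := rfl
      rw [h2, Finset.card_insert_of_notMem hξS, Nat.cast_succ, add_mul, one_mul, add_mul]
      exact (norm_add_le _ _).trans (add_le_add (hψ x hx) h1)
    · have h2 : ∀ z, (ψ + LinearMap.mulRight ℂ r ∘ₗ ψ') z = ψ z + ψ' z * r := fun z => rfl
      rw [mul_add, hφ x hx y hy, hφr x hx y hy, cob_apply, cob_apply, cob_apply, h2, h2, h2,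
        add_mul (ψ x), mul_assoc (ψ' x) r y, ← hrM y hy]
      noncomm_ring

theorem main (h : CC M φ) (hb : Bd2 M φ C) (hC : 0 ≤ C) (K : Set H) (k : ℕ)
    (hK : ∀ F : Finset H, (F : Set H) ⊆ K → ∃ S : Finset H, S.card ≤ k ∧
      (F : Set H) ⊆ closure (Submodule.span ℂ {η : H | ∃ x ∈ M, ∃ ξ ∈ S, η = x ξ} : Set H)) :
    ∃ ψ : Op H →ₗ[ℂ] Op H, Bd M ψ (10 ^ 14 * k * C) ∧
      ∀ x ∈ M, ∀ y ∈ M, ∀ ζ ∈ K, φ x y ζ = cob ψ x y ζ := by
  classical
  obtain ⟨β, hβ, hz, hb'⟩ := znorm h hb hC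
  have h0 : (0 : ℝ) ≤ 100 * C := by positivity
  have h2 : Loc M φ (10 ^ 14 * C) :=
    ((loc_all (h.sub_cob β) hb' h0 hz).add hβ).mono (by linarith)
  have hD0 : (0 : ℝ) ≤ 10 ^ 14 * C := by positivity
  have h3 : ∀ F : Finset H, ∃ ψ : Op H →ₗ[ℂ] Op H, Bd M ψ (k * (10 ^ 14 * C)) ∧
      ∀ x ∈ M, ∀ y ∈ M, ∀ ζ ∈ F, ζ ∈ K → (φ - cob ψ) x y ζ = 0 := by
    intro F
    obtain ⟨S, hSk, hS⟩ := hK (F.filter (· ∈ K)) fun ζ hζ => (mem_filter.1 hζ).2
    obtain ⟨q, -, hqM, hqS, ψ, hψ, hφ⟩ := key hD0 h2 S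
    refine ⟨ψ, fun a ha => (hψ a ha).trans (mul_le_mul_of_nonneg_right
      (mul_le_mul_of_nonneg_right (Nat.cast_le.2 hSk) hD0) (norm_nonneg _)),
      fun x hx y hy ζ hζ hζK => ?_⟩
    have h5 : ((1 : Op H) - q) ζ = 0 := by
      refine VN0.kill (V := {η : H | ∃ x ∈ M, ∃ ξ ∈ S, η = x ξ}) _ ?_
        (hS (mem_coe.2 (mem_filter.2 ⟨hζ, hζK⟩)))
      rintro _ ⟨a, ha, ξ, hξ, rfl⟩
      rw [ContinuousLinearMap.sub_apply, ContinuousLinearMap.one_apply, ← mul_apply_eq_comp q,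
        ← hqM a ha, mul_apply_eq_comp, hqS ξ hξ, sub_self]
    rw [ContinuousLinearMap.sub_apply, ContinuousLinearMap.one_apply, sub_eq_zero] at h5
    rw [LinearMap.sub_apply, LinearMap.sub_apply, ContinuousLinearMap.sub_apply, ← hφ x hx y hy,
      mul_apply_eq_comp, ← h5, sub_self]
  choose ψ hψ hψ' using h3
  let 𝒰 : Ultrafilter (Finset H) := Ultrafilter.of Filter.atTop
  have hU : (𝒰 : Filter (Finset H)) ≤ Filter.atTop := Ultrafilter.of_le _
  obtain ⟨β₀, hb0, hlim⟩ := wlim 𝒰 ψ (by positivity) hψ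
  refine ⟨β₀, fun a ha => (hb0 a ha).trans (le_of_eq (by ring)), fun x hx y hy ζ hζ => ?_⟩
  have t3 : (φ - cob β₀) x y ζ = 0 := by
    refine ext_inner_left ℂ fun η => ?_
    refine tendsto_nhds_unique (wlim_cob (φ := φ) hlim hx hy ζ η) (tendsto_const_nhds.congr' ?_)
    apply hU
    filter_upwards [Filter.eventually_ge_atTop ({ζ} : Finset H)] with S hS
    rw [hψ' S x hx y hy ζ (hS (Finset.mem_singleton_self _)) hζ]
  rw [LinearMap.sub_apply, LinearMap.sub_apply, ContinuousLinearMap.sub_apply] at t3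
  exact sub_eq_zero.1 t3

end Pool.Agent.Kad.H4
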